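import Pool.Agent.N70.PP.Stm

/-!
# PP/LCB (helper464 for helper70): the discriminant of `Θ`
-/

set_option autoImplicit false

open Polynomial

namespace Pool.Agent.N464.PP

open Pool.Agent.Y140.AW
open Pool.Agent.N70.EP (SgnIndex)
open Pool.Agent.N70.PP (St_lcB)

/-- products over ordered pairs -/
theorem prod_pairs {R : Type*} [CommRing R] (d : ℕ) (v : Fin d → R) :
    ∏ t, ∏ u ∈ Finset.univ.erase t, (v t - v u) =
      (-1) ^ (d * (d - 1) / 2) * (∏ t : Fin d, ∏ u ∈ Finset.Ioi t, (v u - v t)) ^ 2 := by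
  classical
  have h1 : ∀ t : Fin d, ∏ u ∈ Finset.univ.erase t, (v t - v u) =
      (∏ u ∈ Finset.Iio t, (v t - v u)) * ∏ u ∈ Finset.Ioi t, (v t - v u) := by
    intro t
    rw [← Finset.prod_union (Finset.disjoint_left.2 fun u hu hu' => by
      rw [Finset.mem_Iio] at hu; rw [Finset.mem_Ioi] at hu'; exact absurd hu (not_lt.2 hu'.le))]
    congr 1
    ext u
    simp only [Finset.mem_erase, Finset.mem_univ, and_true, Finset.mem_union, Finset.mem_Iio,
      Finset.mem_Ioi]
    exact ne_iff_lt_or_gt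
  rw [Finset.prod_congr rfl fun t _ => h1 t, Finset.prod_mul_distrib]
  have h2 : ∏ t : Fin d, ∏ u ∈ Finset.Iio t, (v t - v u) =
      ∏ t : Fin d, ∏ u ∈ Finset.Ioi t, (v u - v t) := by
    refine Finset.prod_comm' fun x y => ?_
    simp
  have h3 : ∏ t : Fin d, ∏ u ∈ Finset.Ioi t, (v t - v u) =
      (-1) ^ (d * (d - 1) / 2) * ∏ t : Fin d, ∏ u ∈ Finset.Ioi t, (v u - v t) := by
    have e1 : ∀ t : Fin d, ∏ u ∈ Finset.Ioi t, (v t - v u) =
        (-1) ^ (d - 1 - (t : ℕ)) * ∏ u ∈ Finset.Ioi t, (v u - v t) := by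
      intro t
      have e2 : (-1 : R) ^ (d - 1 - (t : ℕ)) = ∏ u ∈ Finset.Ioi t, (-1 : R) := by
        rw [Finset.prod_const, Fin.card_Ioi]
      rw [e2, ← Finset.prod_mul_distrib]
      exact Finset.prod_congr rfl fun u _ => by ring
    rw [Finset.prod_congr rfl fun t _ => e1 t, Finset.prod_mul_distrib, Finset.prod_pow_eq_pow_sum]
    congr 2
    rw [Fin.sum_univ_eq_sum_range (fun i => d - 1 - i) d, Finset.sum_range_reflect (fun i => i) d,
      Finset.sum_range_id]
  rw [h2, h3]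
  ring

theorem odd_pairs {d : ℕ} (hd : d % 4 = 2) : Odd (d * (d - 1) / 2) := by
  obtain ⟨k, rfl⟩ : ∃ k, d = 4 * k + 2 := ⟨d / 4, by omega⟩
  have h : (4 * k + 2) * (4 * k + 2 - 1) / 2 = (2 * k + 1) * (4 * k + 1) := by
    have : (4 * k + 2) * (4 * k + 2 - 1) = 2 * ((2 * k + 1) * (4 * k + 1)) := by
      have e : 4 * k + 2 - 1 = 4 * k + 1 := by omega
      rw [e]; ring
    rw [this, Nat.mul_div_cancel_left _ two_pos]
  rw [h]
  exact Odd.mul ⟨k, rfl⟩ ⟨2 * k, by ring⟩

/-- the resultant of a product of linear factors and its derivative -/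
theorem res_prod {N : Type*} [Field N] (F : N[X]) (hF : F.Monic) (d : ℕ) (hd : F.natDegree = d)
    (hd4 : d % 4 = 2) (v : Fin d → N) (hv : Function.Injective v) (hr : ∀ t, F.eval (v t) = 0) :
    resultant F (derivative F) d (d - 1) = -(Matrix.vandermonde v).det ^ 2 := by
  classical
  have hnod : F = Lagrange.nodal Finset.univ v := by
    have hdvd : Lagrange.nodal Finset.univ v ∣ F := by
      rw [Lagrange.nodal]
      refine Finset.prod_dvd_of_coprime (fun i _ j _ hij => pairwise_coprime_X_sub_C hv hij)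
        fun i _ => dvd_iff_isRoot.2 (hr i)
    refine eq_of_monic_of_dvd_of_natDegree_le (Lagrange.nodal_monic) hF hdvd ?_
    rw [hd, Lagrange.natDegree_nodal, Finset.card_univ, Fintype.card_fin]
  have hspl : F.Splits := by
    rw [hnod, Lagrange.nodal]
    exact Splits.prod fun i _ => Splits.X_sub_C _
  have h1 : resultant F (derivative F) F.natDegree (d - 1) =
      F.leadingCoeff ^ (d - 1) * (F.roots.map (derivative F).eval).prod :=
    resultant_eq_prod_eval F (derivative F) (d - 1)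
      ((natDegree_derivative_le F).trans (by rw [hd])) hspl
  rw [hd, hF.leadingCoeff, one_pow, one_mul] at h1
  have hroots : F.roots = Finset.univ.val.map v := by
    have h := roots_multiset_prod_X_sub_C (Finset.univ.val.map v)
    rw [Multiset.map_map] at h
    rw [hnod]
    exact h
  rw [h1, hroots, Multiset.map_map]
  have h2 : (Multiset.map ((fun x => eval x (derivative F)) ∘ v) Finset.univ.val).prod =
      ∏ t, ∏ u ∈ Finset.univ.erase t, (v t - v u) := by
    show ∏ t, eval (v t) (derivative F) = _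
    refine Finset.prod_congr rfl fun t _ => ?_
    rw [hnod, Lagrange.eval_nodal_derivative_eval_node_eq (Finset.mem_univ t), Lagrange.eval_nodal]
  rw [h2, prod_pairs, (odd_pairs hd4).neg_one_pow, Matrix.det_vandermonde]
  ring

theorem exists_perm {Γ : Type} [Group Γ] {P : Subgroup Γ} {m : ℕ} {g : Fin m → Γ}
    (hg : Function.Bijective (fun t => (g t : Γ ⧸ P))) (γ : Γ) :
    ∃ π : Equiv.Perm (Fin m), ∀ t, ((γ * g t : Γ) : Γ ⧸ P) = (g (π t) : Γ ⧸ P) := by
  let e := Equiv.ofBijective _ hg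
  refine ⟨(e.trans (MulAction.toPerm γ)).trans e.symm, fun t => ?_⟩
  have h := e.apply_symm_apply (γ • e t)
  exact h.symm

theorem t_lcB : St_lcB := by
  intro K L Z _ _ _ _ _ _ _ _ _ _ _ _ _ pr hpr P d χ hd4 hS ρ δ hρ0 hδ hρ θ Θ D₀ hθ hΘ hDD
  obtain ⟨g, hg, hsgn⟩ := hS
  obtain ⟨ιR, hιR⟩ : ∃ ιR : RatFunc K →+* Z, ιR = algebraMap (RatFunc K) Z := ⟨_, rfl⟩
  obtain ⟨κ, hκ⟩ : ∃ κ : K[X] →+* RatFunc K, κ = algebraMap K[X] (RatFunc K) := ⟨_, rfl⟩
  have hκinj : Function.Injective κ := by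
    rw [hκ]; exact FaithfulSMul.algebraMap_injective K[X] (RatFunc K)
  have hιinj : Function.Injective ιR := ιR.injective
  -- the conjugates
  obtain ⟨v, hv⟩ : ∃ v : Fin d → Z, v = fun t => g t θ := ⟨_, rfl⟩
  have hcoset : ∀ σ τ : Z ≃ₐ[RatFunc K] Z, (σ : (Z ≃ₐ[RatFunc K] Z) ⧸ P) = τ ↔ σ θ = τ θ := by
    intro σ τ
    rw [QuotientGroup.eq, ← hθ]
    constructor
    · intro h
      have h1 : σ ((σ⁻¹ * τ) θ) = τ θ := by
        rw [← AlgEquiv.mul_apply, mul_inv_cancel_left]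
      rw [h] at h1
      exact h1
    · intro h
      have h1 : (σ⁻¹ * τ) θ = (σ⁻¹ * σ) θ := by
        rw [AlgEquiv.mul_apply, AlgEquiv.mul_apply, h]
      rw [h1, inv_mul_cancel, AlgEquiv.one_apply]
  have hvinj : Function.Injective v := by
    intro s t hst
    rw [hv] at hst
    exact hg.1 ((hcoset _ _).2 hst)
  -- the polynomial over `Z`
  obtain ⟨F, hF⟩ : ∃ F : Z[X], F = Θ.map (ιR.comp κ) := ⟨_, rfl⟩
  have hFm : F.Monic := by rw [hF]; exact hDD.monic.map _
  have hFd : F.natDegree = d := by rw [hF, hDD.monic.natDegree_map, hDD.deg]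
  have hFr : ∀ t, F.eval (v t) = 0 := by
    intro t
    have h1 : F = (minpoly (RatFunc K) θ).map ιR := by
      rw [hF, ← hΘ, hκ, Polynomial.map_map]
    rw [h1, hιR, eval_map_algebraMap, hv]
    show aeval ((g t : Z →ₐ[RatFunc K] Z) θ) (minpoly (RatFunc K) θ) = 0
    rw [aeval_algHom_apply, minpoly.aeval, map_zero]
  have hres : (ιR.comp κ) D₀ = -(Matrix.vandermonde v).det ^ 2 := by
    rw [← res_prod F hFm d hFd hd4 v hvinj hFr, hF, derivative_map, resultant_map_map, hDD.res]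
  -- the element of `Z`
  obtain ⟨ρz, hρz⟩ : ∃ ρz : Z, ρz = algebraMap L Z ρ := ⟨_, rfl⟩
  have hρz0 : ρz ≠ 0 := by
    rw [hρz]
    exact fun h => hρ0 ((algebraMap L Z).injective (by rw [h, map_zero]))
  have hρg : ∀ γ : Z ≃ₐ[RatFunc K] Z, γ ρz = ((((χ (pr γ)) : ℤˣ) : ℤ) : Z) * ρz := by
    intro γ
    rw [hρz, hpr, hρ, zsmul_eq_mul, map_mul, map_intCast]
  have hδz : ιR (κ (C δ)) = ρz ^ 2 := by
    rw [hρz, ← map_pow, ← hδ, ← IsScalarTower.algebraMap_apply K L Z,
      IsScalarTower.algebraMap_apply K (RatFunc K) Z, hιR, hκ, RatFunc.algebraMap_C,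
      RatFunc.algebraMap_eq_C]
  have hδ0 : δ ≠ 0 := by
    rintro rfl
    rw [map_zero] at hδ
    exact pow_ne_zero 2 hρ0 hδ.symm
  have hdet : ∀ γ : Z ≃ₐ[RatFunc K] Z, γ (Matrix.vandermonde v).det =
      ((((χ (pr γ)) : ℤˣ) : ℤ) : Z) * (Matrix.vandermonde v).det := by
    intro γ
    obtain ⟨q, hq⟩ := exists_perm hg γ
    have h1 := RingHom.map_det (γ : Z →+* Z) (Matrix.vandermonde v)
    have h2 : (γ : Z →+* Z).mapMatrix (Matrix.vandermonde v) =
        (Matrix.vandermonde v).submatrix q id := by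
      ext t l
      rw [RingHom.mapMatrix_apply, Matrix.map_apply, Matrix.submatrix_apply,
        Matrix.vandermonde_apply, Matrix.vandermonde_apply, map_pow, id]
      congr 1
      have h3 := (hcoset _ _).1 (hq t)
      rw [AlgEquiv.mul_apply] at h3
      rw [hv]
      exact h3
    rw [h2, Matrix.det_permute, hsgn γ q hq] at h1
    exact h1
  obtain ⟨r, hr⟩ : ∃ r : RatFunc K, ιR r * ρz = (Matrix.vandermonde v).det := by
    have h1 : (Matrix.vandermonde v).det * ρz⁻¹ ∈ Set.range (algebraMap (RatFunc K) Z) := by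
      rw [IsGalois.mem_range_algebraMap_iff_fixed]
      intro γ
      rw [map_mul, map_inv₀, hdet γ, hρg γ]
      rcases Int.units_eq_one_or (χ (pr γ)) with h3 | h3 <;> rw [h3]
      · simp
      · rw [Units.val_neg, Units.val_one, Int.cast_neg, Int.cast_one, neg_one_mul, neg_one_mul,
          inv_neg, neg_mul_neg]
    obtain ⟨r, hr⟩ := h1
    exact ⟨r, by rw [hιR, hr, mul_assoc, inv_mul_cancel₀ hρz0, mul_one]⟩
  have h0 : κ D₀ = -(κ (C δ) * r ^ 2) := by
    apply hιinj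
    have h1 : ιR (κ D₀) = -(Matrix.vandermonde v).det ^ 2 := hres
    rw [h1, ← hr, map_neg, map_mul, map_pow, hδz]
    ring
  have h8 : (C δ⁻¹ : K[X]) * C δ = 1 := by rw [← C_mul, inv_mul_cancel₀ hδ0, C_1]
  have h9 : r ^ 2 = κ (-(C δ⁻¹ * D₀)) := by
    rw [map_neg, map_mul, h0, mul_neg, neg_neg, ← mul_assoc, ← map_mul, h8, map_one, one_mul]
  have h4 : IsIntegral K[X] r :=
    IsIntegral.of_pow (n := 2) two_pos (by rw [h9, hκ]; exact isIntegral_algebraMap)
  obtain ⟨R, hR⟩ := IsIntegrallyClosed.algebraMap_eq_of_integral h4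
  refine ⟨R, hκinj ?_⟩
  have hR' : κ R = r := by rw [hκ]; exact hR
  rw [h0, map_neg, map_mul, map_pow, hR']

end Pool.Agent.N464.PP
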